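import Pool.Agent.KACR.Stmts

/-!
# KACR, row CGR: curves with the same curvature are congruent
-/

set_option autoImplicit false

namespace Pool.Agent.KACR.H41

open Complex

/-- `z ↦ b z + v` -/
noncomputable def mot (b v : ℂ) (hb : ‖b‖ = 1) : ℂ ≃ᵢ ℂ where
  toFun z := b * z + v
  invFun w := (starRingEnd ℂ) b * (w - v)
  left_inv z := by
    have h : (starRingEnd ℂ) b * b = 1 := by
      rw [mul_comm, Complex.mul_conj, Complex.normSq_eq_norm_sq, hb]
      norm_num
    change (starRingEnd ℂ) b * (b * z + v - v) = z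
    rw [add_sub_cancel_right, ← mul_assoc, h, one_mul]
  right_inv w := by
    have h : b * (starRingEnd ℂ) b = 1 := by
      rw [Complex.mul_conj, Complex.normSq_eq_norm_sq, hb]
      norm_num
    change b * ((starRingEnd ℂ) b * (w - v)) + v = w
    rw [← mul_assoc, h, one_mul, sub_add_cancel]
  isometry_toFun := by
    apply Isometry.of_dist_eq
    intro z w
    change dist (b * z + v) (b * w + v) = dist z w
    rw [dist_add_right, dist_eq_norm, ← mul_sub, norm_mul, hb, one_mul, dist_eq_norm]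

theorem mot_apply (b v : ℂ) (hb : ‖b‖ = 1) (z : ℂ) : mot b v hb z = b * z + v := rfl

theorem image_range {g g' : ℝ → ℂ} (F : ℂ ≃ᵢ ℂ) (σ : ℝ → ℝ) (hσ : Function.Surjective σ)
    (h : ∀ s, g' s = F (g (σ s))) : F '' Set.range g = Set.range g' := by
  have h1 : g' = F ∘ g ∘ σ := funext h
  rw [h1, Set.range_comp F, hσ.range_comp]

theorem const_of {f : ℝ → ℂ} (h : ∀ s, HasDerivAt f 0 s) (s : ℝ) : f s = f 0 :=
  is_const_of_deriv_eq_zero (fun x => (h x).differentiableAt) (fun x => (h x).deriv) s 0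

theorem const_ofR {f : ℝ → ℝ} (h : ∀ s, HasDerivAt f 0 s) (s : ℝ) : f s = f 0 :=
  is_const_of_deriv_eq_zero (fun x => (h x).differentiableAt) (fun x => (h x).deriv) s 0

/-- ROW CGR -/
theorem cgr : CgrStmt := by
  intro k k' g g' hg hg' s₀ hk
  obtain ⟨a, ha, hga⟩ := hg.unit
  obtain ⟨a', ha', hga'⟩ := hg'.unit
  rcases hk with hk | hk
  · -- translation
    have h1 : ∀ s, HasDerivAt (fun s => a' s - a (s + s₀)) 0 s := by
      intro s
      have h2 := (ha' s).sub ((ha (s + s₀)).comp_add_const s s₀)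
      rw [hk s, sub_self] at h2
      exact h2
    have h2 : ∀ s, a' s = (a' 0 - a (0 + s₀)) + a (s + s₀) := by
      intro s
      have h3 := const_ofR h1 s
      linarith
    obtain ⟨β, hβ⟩ : ∃ β : ℝ, β = a' 0 - a (0 + s₀) := ⟨_, rfl⟩
    rw [← hβ] at h2
    have hb : ‖Complex.exp (β * I)‖ = 1 := Complex.norm_exp_ofReal_mul_I β
    have h3 : ∀ s, HasDerivAt (fun s => g' s - Complex.exp (β * I) * g (s + s₀)) 0 s := by
      intro s
      have h4 := (hga' s).sub (((hga (s + s₀)).comp_add_const s s₀).const_mul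
        (Complex.exp (β * I)))
      have h5 : Complex.exp (a' s * I) - Complex.exp (β * I) * Complex.exp (a (s + s₀) * I) =
          0 := by
        rw [← Complex.exp_add, h2 s]
        push_cast
        rw [add_mul, sub_self]
      rw [h5] at h4
      exact h4
    obtain ⟨v, hv⟩ : ∃ v : ℂ, v = g' 0 - Complex.exp (β * I) * g (0 + s₀) := ⟨_, rfl⟩
    have h4 : ∀ s, g' s = mot (Complex.exp (β * I)) v hb (g (s + s₀)) := by
      intro s
      have h5 := const_of h3 s
      rw [mot_apply, hv, ← h5]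
      ring
    refine ⟨mot (Complex.exp (β * I)) v hb, fun u w h => (mot _ v hb).injective h,
      image_range _ (fun s => s + s₀) (fun t => ⟨t - s₀, by ring⟩) h4,
      Complex.exp (β * I), v, hb, Or.inl fun z => rfl⟩
  · -- reflection
    have h1 : ∀ s, HasDerivAt (fun s => a' s + a (s₀ - s)) 0 s := by
      intro s
      have h2 := (ha' s).add ((ha (s₀ - s)).comp_const_sub s₀ s)
      rw [hk s] at h2
      have h3 : k (s₀ - s) + -k (s₀ - s) = 0 := by ring
      rw [h3] at h2
      exact h2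
    have h2 : ∀ s, a' s = (a' 0 + a (s₀ - 0)) - a (s₀ - s) := by
      intro s
      have h3 := const_ofR h1 s
      linarith
    obtain ⟨β, hβ⟩ : ∃ β : ℝ, β = a' 0 + a (s₀ - 0) := ⟨_, rfl⟩
    rw [← hβ] at h2
    have hb : ‖-Complex.exp (β * I)‖ = 1 := by
      rw [norm_neg, Complex.norm_exp_ofReal_mul_I β]
    have h3 : ∀ s, HasDerivAt (fun s => g' s - (-Complex.exp (β * I)) *
        (starRingEnd ℂ) (g (s₀ - s))) 0 s := by
      intro s
      have h4 : HasDerivAt (fun s => (starRingEnd ℂ) (g (s₀ - s)))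
          (-(starRingEnd ℂ) (Complex.exp (a (s₀ - s) * I))) s := by
        have h5 := ((Complex.conjCLE : ℂ ≃L[ℝ] ℂ) : ℂ →L[ℝ] ℂ).hasFDerivAt.comp_hasDerivAt s
          ((hga (s₀ - s)).comp_const_sub s₀ s)
        have h6 : ((Complex.conjCLE : ℂ ≃L[ℝ] ℂ) : ℂ →L[ℝ] ℂ)
            (-Complex.exp (a (s₀ - s) * I)) =
            -(starRingEnd ℂ) (Complex.exp (a (s₀ - s) * I)) := by
          rw [map_neg]
          rfl
        rw [h6] at h5
        exact h5
      have h5 := (hga' s).sub (h4.const_mul (-Complex.exp (β * I)))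
      have h6 : Complex.exp (a' s * I) - (-Complex.exp (β * I)) *
          (-(starRingEnd ℂ) (Complex.exp (a (s₀ - s) * I))) = 0 := by
        rw [← Complex.exp_conj, neg_mul_neg, ← Complex.exp_add, h2 s, map_mul, Complex.conj_ofReal,
          Complex.conj_I]
        push_cast
        rw [sub_mul, mul_neg, ← sub_eq_add_neg, sub_self]
      rw [h6] at h5
      exact h5
    obtain ⟨v, hv⟩ : ∃ v : ℂ, v = g' 0 - (-Complex.exp (β * I)) *
        (starRingEnd ℂ) (g (s₀ - 0)) := ⟨_, rfl⟩
    have hF : ∀ z, ((Complex.conjLIE.toIsometryEquiv).trans (mot (-Complex.exp (β * I)) v hb)) z =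
        -Complex.exp (β * I) * (starRingEnd ℂ) z + v := fun z => rfl
    have h4 : ∀ s, g' s = ((Complex.conjLIE.toIsometryEquiv).trans
        (mot (-Complex.exp (β * I)) v hb)) (g (s₀ - s)) := by
      intro s
      have h5 := const_of h3 s
      rw [hF, hv, ← h5]
      ring
    refine ⟨(Complex.conjLIE.toIsometryEquiv).trans (mot (-Complex.exp (β * I)) v hb),
      fun u w h => IsometryEquiv.injective _ h,
      image_range _ (fun s => s₀ - s) (fun t => ⟨s₀ - t, by ring⟩) h4,
      -Complex.exp (β * I), v, hb, Or.inr hF⟩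

end Pool.Agent.KACR.H41
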